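import Pool.Agent.P.MP_bf4cfc_co.Main

/-! Every vertex of an extremal tournament has in-degree and out-degree at least four. -/

set_option autoImplicit false

namespace Pool.Agent.Results.MP_bf4cfc_co.DegreeFour

open Pool.Agent.P.MP_bf4cfc_co

theorem result :
    ∀ k : ℕ, 5 ≤ k → ∀ n : ℕ, ∀ T : Fin n → Fin n → Bool,
      (∀ i, T i i = false) →
      (∀ i j, i ≠ j → (T i j = true ↔ T j i = false)) →
      (¬ ∃ f : Fin k → Fin n, Function.Injective f ∧
          ∀ a b : Fin k, a < b → T (f a) (f b) = true) →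
      (∀ S : Fin (n + 1) → Fin (n + 1) → Bool,
          (∀ i, S i i = false) →
          (∀ i j, i ≠ j → (S i j = true ↔ S j i = false)) →
          ∃ f : Fin k → Fin (n + 1), Function.Injective f ∧
            ∀ a b : Fin k, a < b → S (f a) (f b) = true) →
      ∀ v : Fin n, 4 ≤ (Finset.univ.filter (fun u => T v u = true)).card ∧
        4 ≤ (Finset.univ.filter (fun u => T u v = true)).card :=
  fun _ hk _ _ h1 h2 h3 h4 v =>
    ⟨outdeg hk ⟨h1, h2⟩ h3 (fun S h => h4 S h.irr h.tot) v,
      outdeg hk (Tour.rev ⟨h1, h2⟩) (fun h => h3 h.rev) (fun S h => h4 S h.irr h.tot) v⟩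

end Pool.Agent.Results.MP_bf4cfc_co.DegreeFour
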